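import Mathlib

set_option autoImplicit false

namespace Pool.Agent.Results.MP_f141fb_co.LowerBound

open Polynomial Filter Topology

/-- The Euclidean plane. -/
abbrev Plane : Type := EuclideanSpace ℝ (Fin 2)

/-- `(G, p)` is a unit distance graph: the points `p u` are distinct and every edge of `G`
joins two points at distance one. -/
def IsUnitDistance {n : ℕ} (G : SimpleGraph (Fin n)) (p : Fin n → Plane) : Prop :=
  Function.Injective p ∧ ∀ u v : Fin n, G.Adj u v → dist (p u) (p v) = 1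

/-- The subgraph `H`, placed at the points `p`, is rigid: every continuous motion of its vertices
that starts at `p` and keeps the length of every edge of `H` constant keeps the distance of
every two vertices of `H` constant. -/
def IsRigid {n : ℕ} {G : SimpleGraph (Fin n)} (p : Fin n → Plane) (H : G.Subgraph) : Prop :=
  ∀ q : unitInterval → H.verts → Plane, Continuous q →
    (∀ v : H.verts, q 0 v = p v) →
    (∀ (s : unitInterval) (u v : H.verts), H.Adj u v →
      dist (q s u) (q s v) = dist (p u) (p v)) →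
    ∀ (s : unitInterval) (u v : H.verts), dist (q s u) (q s v) = dist (p u) (p v)

/-- `f n` is the least integer such that every unit distance graph on `n` vertices with at least
`f n` edges contains a rigid subgraph with at least three vertices. -/
noncomputable def f (n : ℕ) : ℕ :=
  sInf {m : ℕ | ∀ (G : SimpleGraph (Fin n)) (p : Fin n → Plane), IsUnitDistance G p →
    m ≤ G.edgeSet.ncard → ∃ H : G.Subgraph, 3 ≤ H.verts.ncard ∧ IsRigid p H}

/-- A graph with a one-parameter motion of all its points that keeps edges at length one and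
brings any two neighbours of a common vertex arbitrarily close has no rigid subgraph with
three or more vertices. -/
lemma no_rigid {n : ℕ} (G : SimpleGraph (Fin n)) (p : Fin n → Plane)
    (hp : IsUnitDistance G p) (P : ℝ → Fin n → Plane) (t₀ : ℝ)
    (hc : ∀ v, Continuous fun t => P t v) (h0 : ∀ v, P t₀ v = p v)
    (hu : ∀ t u v, G.Adj u v → dist (P t u) (P t v) = 1)
    (hl : ∀ w u v, G.Adj w u → G.Adj w v → u ≠ v →
      Tendsto (fun t => dist (P t u) (P t v)) atTop (𝓝 0))
    (H : G.Subgraph) (hH : 3 ≤ H.verts.ncard) : ¬ IsRigid p H := by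
  intro hr
  by_cases hcase : ∃ w u v, H.Adj w u ∧ H.Adj w v ∧ u ≠ v
  · obtain ⟨w, u, v, hwu, hwv, huv⟩ := hcase
    have hpos : 0 < dist (p u) (p v) := dist_pos.mpr (fun h => huv (hp.1 h))
    have hev := (hl w u v hwu.adj_sub hwv.adj_sub huv).eventually (gt_mem_nhds hpos)
    obtain ⟨T, hT⟩ := hev.exists
    have h2 := hr (fun s x => P (t₀ + s * (T - t₀)) x)
      (by
        refine continuous_pi fun x => ?_
        exact (hc x).comp (by fun_prop))
      (by intro x; simp [h0])
      (by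
        intro s x y hxy
        rw [hu _ _ _ hxy.adj_sub, hp.2 _ _ hxy.adj_sub])
      1 ⟨u, hwu.snd_mem⟩ ⟨v, hwv.snd_mem⟩
    simp only [Set.Icc.coe_one, one_mul, add_sub_cancel] at h2
    exact absurd h2 (ne_of_lt hT)
  · push Not at hcase
    obtain ⟨x, hx⟩ : H.verts.Nonempty := by
      rw [← Set.ncard_pos (Set.toFinite _)]; omega
    have hC : ∃ y, ∀ z, H.Adj x z → z = y := by
      by_cases h : ∃ y, H.Adj x y
      · obtain ⟨y, hy⟩ := h
        exact ⟨y, fun z hz => hcase x z y hz hy⟩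
      · push Not at h
        exact ⟨x, fun z hz => absurd hz (h z)⟩
    obtain ⟨y, hy⟩ := hC
    obtain ⟨z, hz, hzC⟩ : ∃ z ∈ H.verts, z ∉ ({x, y} : Set (Fin n)) := by
      refine Set.exists_mem_notMem_of_ncard_lt_ncard ?_ (Set.toFinite _)
      calc ({x, y} : Set (Fin n)).ncard ≤ 2 := Set.ncard_insert_le x {y} |>.trans (by simp)
        _ < _ := by omega
    have hxz : z ≠ x := fun h => hzC (by simp [h])
    classical
    -- move the component of x
    let C : Set (Fin n) := {w | w = x ∨ H.Adj x w}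
    have hzC' : z ∉ C := by
      rintro (h | h)
      · exact hxz h
      · exact hzC (by simp [hy z h])
    have hclosed : ∀ a b, H.Adj a b → a ∈ C → b ∈ C := by
      rintro a b hab (h | h)
      · subst h; exact Or.inr hab
      · left
        exact hcase a b x hab h.symm
    have h2 := hr (fun s w => if (w : Fin n) ∈ C then p w + (s : ℝ) • (p x - p z) else p w)
      (by
        refine continuous_pi fun w => ?_
        by_cases hw : (w : Fin n) ∈ C
        · simp only [hw, if_true]; fun_prop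
        · simp only [hw, if_false]; fun_prop)
      (by intro w; simp)
      (by
        intro s a b hab
        by_cases ha : (a : Fin n) ∈ C
        · have hb := hclosed _ _ hab ha
          simp [ha, hb]
        · have hb : (b : Fin n) ∉ C := fun hb => ha (hclosed _ _ hab.symm hb)
          simp [ha, hb])
      1 ⟨x, hx⟩ ⟨z, hz⟩
    have hxC : x ∈ C := Or.inl rfl
    simp only [hxC, hzC', if_true, if_false, Set.Icc.coe_one, one_smul] at h2
    have h3 : dist (p x + (p x - p z)) (p z) = 2 * dist (p x) (p z) := by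
      rw [dist_eq_norm, dist_eq_norm]
      have : p x + (p x - p z) - p z = (2 : ℝ) • (p x - p z) := by
        rw [two_smul]; abel
      rw [this, norm_smul]; simp
    have hpos : 0 < dist (p x) (p z) := dist_pos.mpr (fun h => hxz (hp.1 h).symm)
    linarith

/-- Gaussian integer `j + i` or `j - i`. -/
def zz (j : ℕ) (b : Bool) : GaussianInt := ⟨j, if b then 1 else -1⟩

/-- the monic polynomials giving the unit steps -/
noncomputable def A {m : ℕ} (ε : Fin m → Bool) : GaussianInt[X] :=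
  ∏ j : Fin m, (X - C (zz j (ε j)))

lemma A_monic {m : ℕ} (ε : Fin m → Bool) : (A ε).Monic := monic_prod_X_sub_C _ _

lemma A_natDegree {m : ℕ} (ε : Fin m → Bool) : (A ε).natDegree = m := by
  unfold A
  rw [natDegree_finsetProd_X_sub_C_eq_card]; simp

lemma A_coeff {m : ℕ} (ε : Fin m → Bool) : (A ε).coeff m = 1 := by
  have h := (A_monic ε).coeff_natDegree
  rwa [A_natDegree] at h

noncomputable def ev (t : ℝ) : GaussianInt[X] →+* ℂ :=
  eval₂RingHom GaussianInt.toComplex (t : ℂ)

lemma ev_A {m : ℕ} (ε : Fin m → Bool) (t : ℝ) :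
    ev t (A ε) = ∏ j : Fin m, ((t : ℂ) - GaussianInt.toComplex (zz j (ε j))) := by
  unfold A ev
  rw [map_prod]
  refine Finset.prod_congr rfl fun j _ => ?_
  simp

noncomputable def B (m : ℕ) (t : ℝ) : ℝ := ∏ j : Fin m, Real.sqrt ((t - (j : ℕ)) ^ 2 + 1)

lemma norm_factor (t : ℝ) (j : ℕ) (b : Bool) :
    ‖(t : ℂ) - GaussianInt.toComplex (zz j b)‖ = Real.sqrt ((t - j) ^ 2 + 1) := by
  rw [Complex.norm_def, Complex.normSq_apply]
  congr 1
  cases b <;> simp [zz, GaussianInt.toComplex_def] <;> ring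

lemma norm_ev_A {m : ℕ} (ε : Fin m → Bool) (t : ℝ) : ‖ev t (A ε)‖ = B m t := by
  rw [ev_A, norm_prod]
  exact Finset.prod_congr rfl fun j _ => norm_factor t j (ε j)

lemma B_pos (m : ℕ) (t : ℝ) : 0 < B m t :=
  Finset.prod_pos fun j _ => Real.sqrt_pos.mpr (by positivity)

lemma A_inj {m : ℕ} {ε ε' : Fin m → Bool} (h : A ε = A ε') : ε = ε' := by
  funext j
  by_contra hne
  have h1 : (A ε).eval (zz j (ε j)) = 0 := by
    unfold A
    rw [eval_prod]
    exact Finset.prod_eq_zero (Finset.mem_univ j) (by simp)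
  rw [h] at h1
  unfold A at h1
  rw [eval_prod, Finset.prod_eq_zero_iff] at h1
  obtain ⟨l, _, hl⟩ := h1
  simp only [eval_sub, eval_X, eval_C, sub_eq_zero] at hl
  have hre := congrArg Zsqrtd.re hl
  have him := congrArg Zsqrtd.im hl
  simp only [zz] at hre him
  have hlj : l = j := by
    apply Fin.ext; exact_mod_cast hre.symm
  subst hlj
  revert him hne
  cases ε l <;> cases ε' l <;> simp

noncomputable def toPlane : ℂ ≃ₗᵢ[ℝ] Plane := Complex.orthonormalBasisOneI.repr

noncomputable def pos (m : ℕ) (t : ℝ) (q : GaussianInt[X]) : Plane :=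
  toPlane ((((B m t)⁻¹ : ℝ) : ℂ) * ev t q)

lemma dist_pos' (m : ℕ) (t : ℝ) (a b : GaussianInt[X]) :
    dist (pos m t a) (pos m t b) = (B m t)⁻¹ * ‖ev t (a - b)‖ := by
  unfold pos
  rw [LinearIsometryEquiv.dist_map, dist_eq_norm, ← mul_sub, ← map_sub, norm_mul,
    Complex.norm_real, Real.norm_of_nonneg (inv_nonneg.mpr (B_pos m t).le)]

lemma continuous_B (m : ℕ) : Continuous (B m) := by
  unfold B
  fun_prop

lemma continuous_ev (q : GaussianInt[X]) : Continuous fun t : ℝ => ev t q := by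
  have : (fun t : ℝ => ev t q) = fun t : ℝ => (q.map GaussianInt.toComplex).eval (t : ℂ) := by
    funext t
    simp [ev, eval₂_eq_eval_map]
  rw [this]
  exact (Polynomial.continuous _).comp Complex.continuous_ofReal

lemma continuous_pos (m : ℕ) (q : GaussianInt[X]) : Continuous fun t => pos m t q := by
  unfold pos
  refine toPlane.continuous.comp ?_
  refine Continuous.mul ?_ (continuous_ev q)
  exact Complex.continuous_ofReal.comp ((continuous_B m).inv₀ fun t => (B_pos m t).ne')

/-- adjacency between polynomials -/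
def AdjP (m : ℕ) (a b : GaussianInt[X]) : Prop :=
  (a.coeff m = 0 ∧ ∃ ε : Fin m → Bool, b = a + A ε) ∨
    (b.coeff m = 0 ∧ ∃ ε : Fin m → Bool, a = b + A ε)

lemma AdjP.symm {m : ℕ} {a b : GaussianInt[X]} (h : AdjP m a b) : AdjP m b a := h.elim Or.inr Or.inl

lemma AdjP.ne {m : ℕ} {a b : GaussianInt[X]} (h : AdjP m a b) : a ≠ b := by
  rintro rfl
  rcases h with ⟨_, ε, h⟩ | ⟨_, ε, h⟩
  all_goals
    have h0 : A ε = 0 := by simpa using h.symm
    exact (A_monic ε).ne_zero h0

lemma AdjP.dist {m : ℕ} {a b : GaussianInt[X]} (h : AdjP m a b) (t : ℝ) :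
    dist (pos m t a) (pos m t b) = 1 := by
  rw [dist_pos']
  rcases h with ⟨_, ε, h⟩ | ⟨_, ε, h⟩
  · rw [h, sub_add_cancel_left, map_neg, norm_neg, norm_ev_A]
    exact inv_mul_cancel₀ (B_pos m t).ne'
  · rw [h, add_sub_cancel_left, norm_ev_A]
    exact inv_mul_cancel₀ (B_pos m t).ne'

lemma cherry {m : ℕ} {w u v : GaussianInt[X]} (hu : AdjP m w u) (hv : AdjP m w v) :
    ∃ ε ε' : Fin m → Bool, u - v = A ε - A ε' := by
  rcases hu with ⟨h1, ε, rfl⟩ | ⟨h1, ε, rfl⟩
  · rcases hv with ⟨h2, ε', rfl⟩ | ⟨h2, ε', h⟩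
    · exact ⟨ε, ε', by ring⟩
    · exfalso
      have := congrArg (fun q => q.coeff m) h
      simp [h1, h2, A_coeff] at this
  · rcases hv with ⟨h2, ε', rfl⟩ | ⟨h2, ε', h⟩
    · exfalso
      simp [h1, A_coeff] at h2
    · exact ⟨ε', ε, by linear_combination h⟩

lemma tendsto_factor (j : ℕ) (b : Bool) :
    Tendsto (fun t : ℝ => ((t : ℂ) - GaussianInt.toComplex (zz j b)) / (t : ℂ)) atTop (𝓝 1) := by
  have h1 : Tendsto (fun t : ℝ => ((t : ℂ))⁻¹) atTop (𝓝 0) := by
    have h := (Complex.continuous_ofReal.tendsto 0).comp tendsto_inv_atTop_zero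
    simpa [Function.comp_def] using h
  have h2 : Tendsto (fun t : ℝ => 1 - GaussianInt.toComplex (zz j b) * ((t : ℂ))⁻¹) atTop
      (𝓝 (1 - GaussianInt.toComplex (zz j b) * 0)) :=
    tendsto_const_nhds.sub (tendsto_const_nhds.mul h1)
  rw [mul_zero, sub_zero] at h2
  refine h2.congr' ?_
  filter_upwards [eventually_gt_atTop 0] with t ht
  have : (t : ℂ) ≠ 0 := by exact_mod_cast ht.ne'
  field_simp

lemma tendsto_evA {m : ℕ} (ε : Fin m → Bool) :
    Tendsto (fun t : ℝ => ev t (A ε) / (t : ℂ) ^ m) atTop (𝓝 1) := by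
  have h := tendsto_finsetProd (Finset.univ : Finset (Fin m))
    (fun j _ => tendsto_factor (j : ℕ) (ε j))
  rw [Finset.prod_const_one] at h
  refine h.congr fun t => ?_
  rw [ev_A, Finset.prod_div_distrib]
  simp

lemma tendsto_diff {m : ℕ} (ε ε' : Fin m → Bool) :
    Tendsto (fun t : ℝ => (B m t)⁻¹ * ‖ev t (A ε - A ε')‖) atTop (𝓝 0) := by
  have h1 := ((tendsto_evA ε).sub (tendsto_evA ε')).norm
  rw [sub_self, norm_zero] at h1
  have h2 := (tendsto_evA ε).norm
  rw [norm_one] at h2
  have h3 := h1.div h2 one_ne_zero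
  rw [zero_div] at h3
  refine h3.congr' ?_
  filter_upwards [eventually_gt_atTop 0] with t ht
  have ht' : (t : ℂ) ^ m ≠ 0 := pow_ne_zero _ (by exact_mod_cast ht.ne')
  have ht2 : ‖(t : ℂ) ^ m‖ ≠ 0 := norm_ne_zero_iff.mpr ht'
  have hB := (B_pos m t).ne'
  simp only [Pi.div_apply]
  rw [← sub_div, norm_div, norm_div, norm_ev_A, map_sub]
  field_simp

lemma toComplex_inj : Function.Injective GaussianInt.toComplex := by
  intro a b h
  exact GaussianInt.toComplex_inj.mp h

lemma exists_generic (T : Finset GaussianInt[X]) :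
    ∃ t : ℝ, ∀ a ∈ T, ∀ b ∈ T, a ≠ b → ev t (a - b) ≠ 0 := by
  classical
  have hfin : ∀ q : GaussianInt[X], q ≠ 0 → {t : ℝ | ev t q = 0}.Finite := by
    intro q hq
    have hq' : q.map GaussianInt.toComplex ≠ 0 :=
      (Polynomial.map_ne_zero_iff toComplex_inj).mpr hq
    have h1 : {x : ℂ | (q.map GaussianInt.toComplex).IsRoot x}.Finite :=
      Polynomial.finite_setOfPred_isRoot hq'
    refine (h1.preimage (f := fun t : ℝ => (t : ℂ)) (Complex.ofReal_injective.injOn)).subset ?_
    intro t ht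
    simp only [Set.mem_ofPred_eq, Set.mem_preimage, IsRoot.def] at ht ⊢
    rw [← ht]
    simp [ev, eval₂_eq_eval_map]
  have hbad : (⋃ ab ∈ ((T ×ˢ T).filter fun ab => ab.1 ≠ ab.2),
      {t : ℝ | ev t (ab.1 - ab.2) = 0}).Finite := by
    refine Set.Finite.biUnion (Finset.finite_toSet _) ?_
    intro ab hab
    have hab' : ab.1 ≠ ab.2 := by
      have := Finset.mem_coe.mp hab
      exact (Finset.mem_filter.mp this).2
    exact hfin _ (sub_ne_zero.mpr hab')
  obtain ⟨t, ht⟩ := hbad.infinite_compl.nonempty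
  refine ⟨t, fun a ha b hb hab h0 => ht ?_⟩
  simp only [Set.mem_iUnion]
  exact ⟨(a, b), Finset.mem_filter.mpr ⟨Finset.mem_product.mpr ⟨ha, hb⟩, hab⟩, h0⟩


/-- all coefficients have real and imaginary part at most `K` in absolute value -/
def Bd (K : ℤ) (q : GaussianInt[X]) : Prop :=
  ∀ k : ℕ, |(q.coeff k).re| ≤ K ∧ |(q.coeff k).im| ≤ K

lemma Bd_mul {m : ℕ} {K : ℤ} (hK : 0 ≤ K) {q : GaussianInt[X]} (h : Bd K q) (j : ℕ)
    (hj : j < m) (b : Bool) : Bd (K * (m + 1)) (q * (X - C (zz j b))) := by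
  intro k
  have hjm : (j : ℤ) + 2 ≤ m + 1 := by omega
  have hj0 : (0 : ℤ) ≤ j := by positivity
  have key : ∀ x y u v : ℤ, |x| ≤ K → |y| ≤ K → |u| ≤ K → |v| ≤ K →
      |x - (u * j + v)| ≤ K * (m + 1) ∧ |x - (u * j - v)| ≤ K * (m + 1) := by
    intro x y u v hx hy hu hv
    have h1 : K * (j + 2) ≤ K * (m + 1) := mul_le_mul_of_nonneg_left hjm hK
    have hu1 := (abs_le.mp hu).1
    have hu2 := (abs_le.mp hu).2
    have hx1 := (abs_le.mp hx).1
    have hx2 := (abs_le.mp hx).2
    have hv1 := (abs_le.mp hv).1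
    have hv2 := (abs_le.mp hv).2
    have h3 : u * j ≤ K * j := mul_le_mul_of_nonneg_right hu2 hj0
    have h4 : -K * j ≤ u * j := mul_le_mul_of_nonneg_right hu1 hj0
    constructor <;> rw [abs_le] <;> constructor <;> nlinarith
  have h0 : ∀ k, (q * (X - C (zz j b))).coeff k =
      (q * X).coeff k - q.coeff k * zz j b := by
    intro k
    rw [mul_sub, coeff_sub, coeff_mul_C]
  have hx : |((q * X).coeff k).re| ≤ K ∧ |((q * X).coeff k).im| ≤ K := by
    cases k with
    | zero => simpa using hK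
    | succ k => rw [coeff_mul_X]; exact h k
  rw [h0]
  obtain ⟨hk1, hk2⟩ := h k
  have hk1' : |-(q.coeff k).re| ≤ K := by rwa [abs_neg]
  have hk2' : |-(q.coeff k).im| ≤ K := by rwa [abs_neg]
  cases b
  · have e1 : ((q * X).coeff k - q.coeff k * zz j false).re =
        ((q * X).coeff k).re - ((q.coeff k).re * j + (q.coeff k).im) := by
      simp [zz]
    have e2 : ((q * X).coeff k - q.coeff k * zz j false).im =
        ((q * X).coeff k).im - ((q.coeff k).im * j - (q.coeff k).re) := by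
      simp [zz]; ring
    rw [e1, e2]
    exact ⟨(key _ _ _ _ hx.1 hx.1 hk1 hk2).1, (key _ _ _ _ hx.2 hx.2 hk2 hk1).2⟩
  · have e1 : ((q * X).coeff k - q.coeff k * zz j true).re =
        ((q * X).coeff k).re - ((q.coeff k).re * j - (q.coeff k).im) := by
      simp [zz]; ring
    have e2 : ((q * X).coeff k - q.coeff k * zz j true).im =
        ((q * X).coeff k).im - ((q.coeff k).im * j + (q.coeff k).re) := by
      simp [zz]; ring
    rw [e1, e2]
    exact ⟨(key _ _ _ _ hx.1 hx.1 hk1 hk2).2, (key _ _ _ _ hx.2 hx.2 hk2 hk1).1⟩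

lemma Bd_one : Bd 1 (1 : GaussianInt[X]) := by
  intro k
  rw [coeff_one]
  split_ifs <;> simp

lemma Bd_A {m : ℕ} (ε : Fin m → Bool) : Bd (((m : ℤ) + 1) ^ m) (A ε) := by
  classical
  have h : ∀ S : Finset (Fin m), Bd (((m : ℤ) + 1) ^ S.card) (∏ j ∈ S, (X - C (zz j (ε j)))) := by
    intro S
    induction S using Finset.induction_on with
    | empty => simpa using Bd_one
    | insert a S ha ih =>
      rw [Finset.prod_insert ha, Finset.card_insert_of_notMem ha, pow_succ, mul_comm (X - C _)]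
      exact Bd_mul (by positivity) ih a a.2 _
  have := h Finset.univ
  simpa [A] using this

/-- polynomial with given coefficients below `m` -/
noncomputable def toPoly {m : ℕ} (c : Fin m → GaussianInt) : GaussianInt[X] :=
  ∑ k : Fin m, C (c k) * X ^ (k : ℕ)

lemma coeff_toPoly {m : ℕ} (c : Fin m → GaussianInt) (k : ℕ) :
    (toPoly c).coeff k = if h : k < m then c ⟨k, h⟩ else 0 := by
  unfold toPoly
  rw [finsetSum_coeff]
  simp only [coeff_C_mul, coeff_X_pow]
  split_ifs with h
  · rw [Finset.sum_eq_single (⟨k, h⟩ : Fin m)]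
    · simp
    · intro b _ hb
      have : k ≠ (b : ℕ) := fun hk => hb (Fin.ext hk.symm)
      simp [this]
    · simp
  · refine Finset.sum_eq_zero fun b _ => ?_
    have : k ≠ (b : ℕ) := by have := b.2; omega
    simp [this]

lemma toPoly_inj {m : ℕ} : Function.Injective (toPoly (m := m)) := by
  intro c c' h
  funext k
  have := congrArg (fun q => q.coeff (k : ℕ)) h
  simpa [coeff_toPoly] using this

/-- square box of Gaussian integers -/
noncomputable def box (a b : ℤ) : Finset GaussianInt :=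
  (Finset.Ico a b ×ˢ Finset.Ico a b).image fun p => (⟨p.1, p.2⟩ : GaussianInt)

lemma mem_box {a b : ℤ} {z : GaussianInt} :
    z ∈ box a b ↔ (a ≤ z.re ∧ z.re < b) ∧ (a ≤ z.im ∧ z.im < b) := by
  unfold box
  simp only [Finset.mem_image, Finset.mem_product, Finset.mem_Ico, Prod.exists]
  constructor
  · rintro ⟨x, y, h, rfl⟩; exact h
  · intro h; exact ⟨z.re, z.im, h, rfl⟩

lemma card_box (a b : ℤ) : (box a b).card = (b - a).toNat ^ 2 := by
  unfold box
  rw [Finset.card_image_of_injective, Finset.card_product, Int.card_Ico, sq]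
  rintro ⟨x, y⟩ ⟨x', y'⟩ h
  have h1 := congrArg Zsqrtd.re h
  have h2 := congrArg Zsqrtd.im h
  simp only at h1 h2
  rw [h1, h2]

open Classical in
noncomputable def V0 (m M : ℕ) : Finset GaussianInt[X] :=
  (Fintype.piFinset fun _ : Fin m => box 0 M).image toPoly

open Classical in
noncomputable def V1 (m M : ℕ) : Finset GaussianInt[X] :=
  (Fintype.piFinset fun _ : Fin m => box (-((m : ℤ) + 1) ^ m) (M + ((m : ℤ) + 1) ^ m)).image
    fun c => X ^ m + toPoly c

lemma card_V0 (m M : ℕ) : (V0 m M).card = M ^ (2 * m) := by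
  unfold V0
  rw [Finset.card_image_of_injective _ toPoly_inj, Fintype.card_piFinset]
  simp only [card_box, Finset.prod_const, Finset.card_univ, Fintype.card_fin, sub_zero,
    Int.toNat_natCast]
  rw [← pow_mul]

lemma card_V1 (m M : ℕ) : (V1 m M).card ≤ (M + 2 * (m + 1) ^ m) ^ (2 * m) := by
  unfold V1
  refine Finset.card_image_le.trans ?_
  rw [Fintype.card_piFinset]
  simp only [card_box, Finset.prod_const, Finset.card_univ, Fintype.card_fin]
  rw [← pow_mul]
  have : ((M : ℤ) + ((m : ℤ) + 1) ^ m - -((m : ℤ) + 1) ^ m).toNat = M + 2 * (m + 1) ^ m := by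
    have e : (M : ℤ) + ((m : ℤ) + 1) ^ m - -((m : ℤ) + 1) ^ m = ((M + 2 * (m + 1) ^ m : ℕ) : ℤ) := by
      push_cast; ring
    rw [e, Int.toNat_natCast]
  rw [this]

lemma V0_coeff {m M : ℕ} {q : GaussianInt[X]} (h : q ∈ V0 m M) : q.coeff m = 0 := by
  unfold V0 at h
  obtain ⟨c, _, rfl⟩ := Finset.mem_image.mp h
  rw [coeff_toPoly]; simp

lemma V0_add {m M : ℕ} {q : GaussianInt[X]} (h : q ∈ V0 m M) (ε : Fin m → Bool) :
    q + A ε ∈ V1 m M := by
  unfold V0 at h
  obtain ⟨c, hc, rfl⟩ := Finset.mem_image.mp h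
  unfold V1
  rw [Finset.mem_image]
  refine ⟨fun k => c k + (A ε).coeff k, ?_, ?_⟩
  · rw [Fintype.mem_piFinset] at hc ⊢
    intro k
    have h1 := mem_box.mp (hc k)
    have h2 := Bd_A ε k
    rw [abs_le, abs_le] at h2
    rw [mem_box]
    simp only [Zsqrtd.re_add, Zsqrtd.im_add]
    omega
  · ext1 k
    simp only [coeff_add, coeff_X_pow, coeff_toPoly]
    rcases lt_trichotomy k m with hk | hk | hk
    · simp [hk, hk.ne]
    · subst hk; simp [A_coeff]
    · have : (A ε).coeff k = 0 := coeff_eq_zero_of_natDegree_lt (by rw [A_natDegree]; exact hk)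
      simp [this, hk.ne', hk.le.not_gt]

theorem finite_version (m M n : ℕ)
    (hn : M ^ (2 * m) + (M + 2 * (m + 1) ^ m) ^ (2 * m) ≤ n) :
    ∃ (G : SimpleGraph (Fin n)) (p : Fin n → Plane), IsUnitDistance G p ∧
      2 ^ m * M ^ (2 * m) ≤ G.edgeSet.ncard ∧
      ∀ H : G.Subgraph, 3 ≤ H.verts.ncard → ¬ IsRigid p H := by
  classical
  have hcard : (V0 m M ∪ V1 m M).card ≤ n :=
    (Finset.card_union_le _ _).trans ((add_le_add (card_V0 m M).le (card_V1 m M)).trans hn)
  obtain ⟨T, hT, hTn⟩ := Infinite.exists_superset_card_eq (V0 m M ∪ V1 m M) n hcard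
  obtain ⟨t₀, ht₀⟩ := exists_generic T
  let e : Fin n ≃ T := (T.equivFinOfCardEq hTn).symm
  let G : SimpleGraph (Fin n) :=
    { Adj := fun i j => AdjP m (e i : GaussianInt[X]) (e j)
      symm := ⟨fun i j h => h.symm⟩
      loopless := ⟨fun i h => h.ne rfl⟩ }
  have hinj : Function.Injective fun i : Fin n => pos m t₀ (e i) := by
    intro i j hij
    by_contra hne
    have h1 : (e i : GaussianInt[X]) ≠ e j := fun h => hne (e.injective (Subtype.ext h))
    have h2 := ht₀ _ (e i).2 _ (e j).2 h1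
    have h3 : dist (pos m t₀ (e i)) (pos m t₀ (e j)) = 0 := by
      simp only at hij; rw [hij, dist_self]
    rw [dist_pos'] at h3
    have h4 := mul_ne_zero (inv_ne_zero (B_pos m t₀).ne') (norm_ne_zero_iff.mpr h2)
    exact h4 h3
  have hUD : IsUnitDistance G (fun i => pos m t₀ (e i)) :=
    ⟨hinj, fun u v h => AdjP.dist h t₀⟩
  refine ⟨G, fun i => pos m t₀ (e i), hUD, ?_, ?_⟩
  · -- edge count
    let φ : GaussianInt[X] × (Fin m → Bool) → Sym2 GaussianInt[X] := fun x => s(x.1, x.1 + A x.2)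
    let S : Finset (GaussianInt[X] × (Fin m → Bool)) := V0 m M ×ˢ Finset.univ
    have hS : S.card = 2 ^ m * M ^ (2 * m) := by
      simp [S, Finset.card_product, card_V0, mul_comm]
    have hφ : Set.InjOn φ S := by
      rintro ⟨a, ε⟩ ha ⟨b, ε'⟩ hb hab
      have ha' : a.coeff m = 0 := V0_coeff (Finset.mem_product.mp (Finset.mem_coe.mp ha)).1
      have hb' : b.coeff m = 0 := V0_coeff (Finset.mem_product.mp (Finset.mem_coe.mp hb)).1
      simp only [φ, Sym2.eq_iff] at hab
      rcases hab with ⟨h1, h2⟩ | ⟨h1, h2⟩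
      · subst h1
        have := A_inj (add_left_cancel h2)
        rw [this]
      · exfalso
        have := congrArg (fun q => q.coeff m) h1
        simp [ha', hb', A_coeff] at this
    have hsub : φ '' S ⊆ (Sym2.map fun i : Fin n => (e i : GaussianInt[X])) '' G.edgeSet := by
      rintro _ ⟨⟨a, ε⟩, ha, rfl⟩
      have haV : a ∈ V0 m M := (Finset.mem_product.mp (Finset.mem_coe.mp ha)).1
      have haT : a ∈ T := hT (Finset.mem_union_left _ haV)
      have hbT : a + A ε ∈ T := hT (Finset.mem_union_right _ (V0_add haV ε))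
      refine ⟨s(e.symm ⟨a, haT⟩, e.symm ⟨a + A ε, hbT⟩), ?_, ?_⟩
      · rw [SimpleGraph.mem_edgeSet]
        change AdjP m _ _
        simp only [Equiv.apply_symm_apply]
        exact Or.inl ⟨V0_coeff haV, ε, rfl⟩
      · simp [φ]
    have hS' : 2 ^ m * M ^ (2 * m) = (S : Set (GaussianInt[X] × (Fin m → Bool))).ncard := by
      rw [Set.ncard_coe_finset, hS]
    calc 2 ^ m * M ^ (2 * m) = (S : Set (GaussianInt[X] × (Fin m → Bool))).ncard := hS'
      _ = (φ '' S).ncard := hφ.ncard_image.symm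
      _ ≤ ((Sym2.map fun i : Fin n => (e i : GaussianInt[X])) '' G.edgeSet).ncard :=
        Set.ncard_le_ncard hsub (Set.toFinite _)
      _ ≤ G.edgeSet.ncard := Set.ncard_image_le (Set.toFinite _)
  · intro H hH
    refine no_rigid G _ hUD (fun t i => pos m t (e i)) t₀ (fun v => continuous_pos m _)
      (fun v => rfl) (fun t u v h => AdjP.dist h t) ?_ H hH
    intro w u v hwu hwv huv
    obtain ⟨ε, ε', h⟩ := cherry hwu hwv
    simp only [dist_pos']
    rw [h]
    exact tendsto_diff ε ε'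

lemma pow_le_three (m : ℕ) {M x : ℝ} (hM : 0 < M) (hx : 0 ≤ x)
    (h : x * (2 * m) ≤ M) : (M + x) ^ (2 * m) ≤ 3 * M ^ (2 * m) := by
  have h1 : M + x = M * (1 + x / M) := by field_simp
  have h2 : (1 + x / M) ^ (2 * m) ≤ 3 := by
    calc (1 + x / M) ^ (2 * m) ≤ (Real.exp (x / M)) ^ (2 * m) := by
          apply pow_le_pow_left₀ (by positivity)
          linarith [Real.add_one_le_exp (x / M)]
      _ = Real.exp ((2 * m : ℕ) * (x / M)) := by rw [← Real.exp_nat_mul]
      _ ≤ Real.exp 1 := by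
          apply Real.exp_le_exp.mpr
          push_cast
          rw [mul_div_assoc', div_le_one hM]
          linarith
      _ ≤ 3 := by linarith [Real.exp_one_lt_d9]
  rw [h1, mul_pow]
  nlinarith [pow_pos hM (2 * m)]

lemma f_gt {n : ℕ} {G : SimpleGraph (Fin n)} {p : Fin n → Plane} (h : IsUnitDistance G p)
    (hH : ∀ H : G.Subgraph, 3 ≤ H.verts.ncard → ¬ IsRigid p H) : G.edgeSet.ncard < f n := by
  have hne : {m : ℕ | ∀ (G : SimpleGraph (Fin n)) (p : Fin n → Plane), IsUnitDistance G p →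
      m ≤ G.edgeSet.ncard → ∃ H : G.Subgraph, 3 ≤ H.verts.ncard ∧ IsRigid p H}.Nonempty := by
    refine ⟨(Set.univ : Set (Sym2 (Fin n))).ncard + 1, ?_⟩
    intro G p _ hle
    exfalso
    have := Set.ncard_le_ncard (Set.subset_univ G.edgeSet) (Set.toFinite _)
    omega
  by_contra hcon
  push Not at hcon
  obtain ⟨H, h3, hr⟩ := (Nat.sInf_mem hne) G p h hcon
  exact hH H h3 hr

theorem explicit_bound {m n : ℕ} (hm : 0 < m) (hn : 4 * (4 * m * (m + 1) ^ m) ^ (2 * m) ≤ n) :
    2 ^ m * n ≤ 12 * f n := by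
  classical
  set K : ℕ := (m + 1) ^ m with hK
  have hK1 : 1 ≤ K := Nat.one_le_pow _ _ (by omega)
  have hex : ∃ x : ℕ, n < 4 * x ^ (2 * m) := by
    refine ⟨n + 1, ?_⟩
    have : n + 1 ≤ (n + 1) ^ (2 * m) := Nat.le_self_pow (by omega) _
    omega
  obtain ⟨M', hM', hmin⟩ : ∃ x : ℕ, n < 4 * x ^ (2 * m) ∧ ∀ y < x, ¬ (n < 4 * y ^ (2 * m)) :=
    ⟨Nat.find hex, Nat.find_spec hex, fun y hy => Nat.find_min hex hy⟩
  have hlt : 4 * m * K < M' := by
    by_contra hcon
    push Not at hcon
    have : 4 * M' ^ (2 * m) ≤ 4 * (4 * m * K) ^ (2 * m) :=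
      Nat.mul_le_mul_left _ (Nat.pow_le_pow_left hcon _)
    omega
  obtain ⟨M, rfl⟩ : ∃ M, M' = M + 1 := ⟨M' - 1, by omega⟩
  have hM : 4 * m * K ≤ M := by omega
  have hMn : 4 * M ^ (2 * m) ≤ n := not_lt.mp (hmin M (by omega))
  have hmK : 4 * m ≤ 4 * m * K := Nat.le_mul_of_pos_right _ hK1
  have hMpos : 0 < M := by omega
  have hMr : (0 : ℝ) < M := by exact_mod_cast hMpos
  have hMr' : (4 * m * K : ℝ) ≤ M := by exact_mod_cast hM
  have hmr : (1 : ℝ) ≤ m := by exact_mod_cast hm
  have hKr : (1 : ℝ) ≤ K := by exact_mod_cast hK1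
  have e1 : (M + 2 * K) ^ (2 * m) ≤ 3 * M ^ (2 * m) := by
    have := pow_le_three m hMr (x := 2 * K) (by positivity) (by nlinarith)
    exact_mod_cast this
  have e2 : (M + 1) ^ (2 * m) ≤ 3 * M ^ (2 * m) := by
    have := pow_le_three m hMr (x := 1) (by positivity) (by nlinarith)
    exact_mod_cast this
  obtain ⟨G, p, hUD, hE, hH⟩ := finite_version m M n (by rw [← hK]; omega)
  have hf := f_gt hUD hH
  calc 2 ^ m * n ≤ 2 ^ m * (12 * M ^ (2 * m)) := Nat.mul_le_mul_left _ (by omega)
    _ = 12 * (2 ^ m * M ^ (2 * m)) := by ring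
    _ ≤ 12 * f n := Nat.mul_le_mul_left _ (by omega)

lemma tendsto_ratio :
    Tendsto (fun n : ℕ => Real.sqrt (Real.log n / Real.log (Real.log n))) atTop atTop := by
  have hL : Tendsto (fun n : ℕ => Real.log n) atTop atTop :=
    Real.tendsto_log_atTop.comp tendsto_natCast_atTop_atTop
  have h1 : Tendsto (fun y : ℝ => y / Real.log y) atTop atTop := by
    have h2 : Tendsto (fun y : ℝ => Real.sqrt y / 2) atTop atTop :=
      Real.tendsto_sqrt_atTop.atTop_div_const (by norm_num)
    refine tendsto_atTop_mono' _ ?_ h2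
    filter_upwards [eventually_gt_atTop 1] with y hy
    have hlog : 0 < Real.log y := Real.log_pos hy
    have hs : 0 < Real.sqrt y := Real.sqrt_pos.mpr (by linarith)
    rw [div_le_div_iff₀ (by norm_num) hlog]
    have h3 : Real.log y ≤ 2 * Real.sqrt y := by
      have h4 : Real.log (Real.sqrt y) ≤ Real.sqrt y - 1 := Real.log_le_sub_one_of_pos hs
      rw [Real.log_sqrt (by linarith)] at h4
      linarith
    have h5 : Real.sqrt y * Real.sqrt y = y := Real.mul_self_sqrt (by linarith)
    nlinarith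
  exact Real.tendsto_sqrt_atTop.comp (h1.comp hL)

/-- **Lower bound for `f`.** There is a constant `c > 0` such that
`f n ≥ n * exp (c * sqrt (log n / log log n))` for all large `n`. -/
theorem result : ∃ c : ℝ, 0 < c ∧ ∃ N : ℕ, ∀ n : ℕ, N ≤ n →
    (n : ℝ) * Real.exp (c * Real.sqrt (Real.log n / Real.log (Real.log n))) ≤ (f n : ℝ) := by
  refine ⟨1 / 10, by norm_num, ?_⟩
  rw [← eventually_atTop]
  have hL : Tendsto (fun n : ℕ => Real.log n) atTop atTop :=
    Real.tendsto_log_atTop.comp tendsto_natCast_atTop_atTop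
  have hLL : Tendsto (fun n : ℕ => Real.log (Real.log n)) atTop atTop :=
    Real.tendsto_log_atTop.comp hL
  filter_upwards [tendsto_ratio.eventually_ge_atTop 50, hLL.eventually_ge_atTop 2,
    hL.eventually_ge_atTop 1, eventually_ge_atTop 1] with n hx hl hL1 hn1
  set L := Real.log n with hLdef
  set l := Real.log L with hldef
  set x := Real.sqrt (L / l) with hxdef
  have hxsq : x ^ 2 * l = L := by
    rw [hxdef, Real.sq_sqrt (by positivity)]
    field_simp
  have hnpos : (0 : ℝ) < n := by exact_mod_cast hn1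
  have hxL : x ≤ Real.sqrt L := by
    apply Real.sqrt_le_sqrt
    apply div_le_self <;> linarith
  have hlogx : Real.log x ≤ l / 2 := by
    calc Real.log x ≤ Real.log (Real.sqrt L) := Real.log_le_log (by linarith) hxL
      _ = l / 2 := by rw [Real.log_sqrt (by linarith)]
  obtain ⟨m, hmdef⟩ : ∃ m : ℕ, m = ⌊x / 4⌋₊ := ⟨_, rfl⟩
  have hm1 : (m : ℝ) ≤ x / 4 := by rw [hmdef]; exact Nat.floor_le (by linarith)
  have hm2 : x / 4 < m + 1 := by rw [hmdef]; exact Nat.lt_floor_add_one _
  have hm0 : 1 ≤ m := by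
    rw [hmdef]; exact Nat.le_floor (by push_cast; linarith)
  have hm0r : (1 : ℝ) ≤ m := by exact_mod_cast hm0
  have hlogm1 : Real.log ((m : ℝ) + 1) ≤ l / 2 :=
    (Real.log_le_log (by linarith) (by linarith)).trans hlogx
  have hlog4 : Real.log 4 ≤ 2 := by
    have : Real.log 4 = 2 * Real.log 2 := by
      rw [show (4 : ℝ) = 2 ^ 2 by norm_num, Real.log_pow]; norm_num
    rw [this]; linarith [Real.log_two_lt_d9]
  have hlogm : Real.log (4 * (m : ℝ)) ≤ 2 + l / 2 := by
    rw [Real.log_mul (by norm_num) (by positivity)]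
    have : Real.log (m : ℝ) ≤ Real.log ((m : ℝ) + 1) := Real.log_le_log (by linarith) (by linarith)
    linarith
  have hbig : 4 * (4 * m * (m + 1) ^ m) ^ (2 * m) ≤ n := by
    have hr : ((4 * (4 * m * (m + 1) ^ m) ^ (2 * m) : ℕ) : ℝ) ≤ n := by
      push_cast
      rw [← Real.log_le_log_iff (by positivity) hnpos, Real.log_mul (by norm_num) (by positivity),
        Real.log_pow, Real.log_mul (by positivity) (by positivity), Real.log_pow]
      push_cast
      have h1 : (m : ℝ) * Real.log ((m : ℝ) + 1) ≤ m * (l / 2) :=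
        mul_le_mul_of_nonneg_left hlogm1 (by positivity)
      have h2 : 2 * (m : ℝ) * (Real.log (4 * (m : ℝ)) + m * Real.log ((m : ℝ) + 1)) ≤
          2 * (m : ℝ) * (2 + l / 2 + m * (l / 2)) :=
        mul_le_mul_of_nonneg_left (by linarith) (by positivity)
      have h3 : (m : ℝ) ^ 2 * l ≤ L / 16 := by
        have : (m : ℝ) ^ 2 ≤ (x / 4) ^ 2 := pow_le_pow_left₀ (by positivity) hm1 2
        nlinarith
      have h4 : (m : ℝ) ≤ m ^ 2 := by nlinarith
      have h5 : (m : ℝ) * l ≤ m ^ 2 * l := mul_le_mul_of_nonneg_right h4 (by linarith)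
      have h6 : (m : ℝ) * 2 ≤ m * l := mul_le_mul_of_nonneg_left hl (by positivity)
      have h7 : (2 : ℝ) ≤ m * l := by nlinarith
      calc Real.log 4 + 2 * (m : ℝ) * (Real.log (4 * (m : ℝ)) + m * Real.log ((m : ℝ) + 1))
          ≤ 2 + 2 * (m : ℝ) * (2 + l / 2 + m * (l / 2)) := by linarith
        _ = 2 + 2 * ((m : ℝ) * 2) + m * l + m ^ 2 * l := by ring
        _ ≤ L := by nlinarith
    exact_mod_cast hr
  have hmain := explicit_bound hm0 hbig
  have hmain' : (2 : ℝ) ^ m * n ≤ 12 * f n := by exact_mod_cast hmain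
  have hexp : Real.exp (1 / 10 * x) * 12 ≤ (2 : ℝ) ^ m := by
    rw [← Real.log_le_log_iff (by positivity) (by positivity),
      Real.log_mul (Real.exp_pos _).ne' (by norm_num), Real.log_exp, Real.log_pow]
    have h12 : Real.log 12 ≤ 2.5 := by
      rw [Real.log_le_iff_le_exp (by norm_num)]
      have : Real.exp 2.5 = Real.exp 1 ^ 2 * Real.exp 0.5 := by
        rw [← Real.exp_nat_mul, ← Real.exp_add]; norm_num
      rw [this]
      have h1 := Real.exp_one_gt_d9
      have h2 : (1.64 : ℝ) ≤ Real.exp 0.5 := by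
        have := Real.quadratic_le_exp_of_nonneg (x := 0.5) (by norm_num)
        have h3 : Real.exp 0.5 * Real.exp 0.5 = Real.exp 1 := by
          rw [← Real.exp_add]; norm_num
        nlinarith
      nlinarith
    have hl2 := Real.log_two_gt_d9
    have h3 : (x / 4 - 1) * Real.log 2 ≤ m * Real.log 2 :=
      mul_le_mul_of_nonneg_right (by linarith) (by linarith)
    nlinarith
  have h8 : (n : ℝ) * (Real.exp (1 / 10 * x) * 12) ≤ n * 2 ^ m :=
    mul_le_mul_of_nonneg_left hexp hnpos.le
  linarith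

end Pool.Agent.Results.MP_f141fb_co.LowerBound
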